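import Pool.Agent.Bsg.Final

/-!
MP_350f26_co (structure of the base-sequence graphs): for `n = 2^(a+1) 10^b 26^c`, `n ≥ 4`, the
vertices `{(f+1)^2, (f-1)^2, g^2, g^2}`, `f^2 + g^2 = 2 n`, span a complete graph with all loops in
`Γ_n`, as part (c) of the conjecture says. So the graphs `Γ_n` contain arbitrarily large complete
graphs with all loops.
-/

set_option autoImplicit false

namespace Pool.Agent.Results.MP_350f26_co.GolayCliques

/-- `X 0, .., X (m - 1)` is a sequence of `m` signs (`X i = 0` for `i ≥ m`). -/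
def IsSeq (m : ℕ) (X : ℕ → ℤ) : Prop :=
  (∀ i, i < m → X i = 1 ∨ X i = -1) ∧ ∀ i, m ≤ i → X i = 0

/-- The nonperiodic autocorrelation `N_X(j)` of a sequence `X` of length `m`. -/
def autocorr (m : ℕ) (X : ℕ → ℤ) (j : ℕ) : ℤ := ∑ i ∈ Finset.range m, X i * X (i + j)

/-- `(A; B; C; D)` belongs to `BS(n + 1, n)`. -/
def IsBase (n : ℕ) (A B C D : ℕ → ℤ) : Prop :=
  IsSeq (n + 1) A ∧ IsSeq (n + 1) B ∧ IsSeq n C ∧ IsSeq n D ∧
    ∀ j, 1 ≤ j →
      autocorr (n + 1) A j + autocorr (n + 1) B j + autocorr n C j + autocorr n D j = 0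

/-- The alternated sequence `x_1, -x_2, x_3, -x_4, ..`. -/
def alt (X : ℕ → ℤ) : ℕ → ℤ := fun i => (-1) ^ i * X i

/-- The multiset of the squares of the four sums of `(A; B; C; D)`. -/
def part (n : ℕ) (A B C D : ℕ → ℤ) : Multiset ℤ :=
  {(∑ i ∈ Finset.range (n + 1), A i) ^ 2, (∑ i ∈ Finset.range (n + 1), B i) ^ 2,
    (∑ i ∈ Finset.range n, C i) ^ 2, (∑ i ∈ Finset.range n, D i) ^ 2}

/-- The vertices of `Γ_n`: the partitions of `4 n + 2` into four squares. -/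
def IsVertex (n : ℕ) (p : Multiset ℤ) : Prop :=
  ∃ x y z w : ℤ, x ^ 2 + y ^ 2 + z ^ 2 + w ^ 2 = 4 * n + 2 ∧ p = {x ^ 2, y ^ 2, z ^ 2, w ^ 2}

/-- `p` and `q` are adjacent in `Γ_n` (there is a loop at `p` if `p = q`). -/
def Adj (n : ℕ) (p q : Multiset ℤ) : Prop :=
  ∃ A B C D : ℕ → ℤ, IsBase n A B C D ∧
    ((part n A B C D = p ∧ part n (alt A) (alt B) (alt C) (alt D) = q) ∨
      (part n A B C D = q ∧ part n (alt A) (alt B) (alt C) (alt D) = p))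

/-- The partition with the parts `(f + 1)^2, (f - 1)^2, g^2, g^2`. -/
def golayVertex (f g : ℤ) : Multiset ℤ := {(f + 1) ^ 2, (f - 1) ^ 2, g ^ 2, g ^ 2}

/-- (1) Let `n = 2^(a+1) 10^b 26^c`, `n ≥ 4`. For all integers with `f^2 + g^2 = h^2 + k^2 = 2 n` the
vertices `{(f+1)^2, (f-1)^2, g^2, g^2}` and `{(h+1)^2, (h-1)^2, k^2, k^2}` of `Γ_n` are adjacent
(if they are equal: there is a loop). (2) For every `M ≥ 1` the graph `Γ_n`, `n = 2 · 100^M`,
contains `M + 1` vertices any two of which, equal or not, are adjacent: a complete graph with all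
loops. -/
theorem result :
    (∀ a b c n : ℕ, 1 ≤ a + b + c → n = 2 ^ (a + 1) * 10 ^ b * 26 ^ c → ∀ f g h k : ℤ,
      f ^ 2 + g ^ 2 = 2 * n → h ^ 2 + k ^ 2 = 2 * n →
        IsVertex n (golayVertex f g) ∧ Adj n (golayVertex f g) (golayVertex h k)) ∧
    ∀ M n : ℕ, 1 ≤ M → n = 2 * 100 ^ M → ∃ P : Fin (M + 1) → Multiset ℤ,
      Function.Injective P ∧ (∀ i, IsVertex n (P i)) ∧ ∀ i j, Adj n (P i) (P j) := by
  have key : ∀ a b c n : ℕ, 1 ≤ a + b + c → n = 2 ^ (a + 1) * 10 ^ b * 26 ^ c → ∀ f g h k : ℤ,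
      f ^ 2 + g ^ 2 = 2 * n → h ^ 2 + k ^ 2 = 2 * n →
        IsVertex n (golayVertex f g) ∧ Adj n (golayVertex f g) (golayVertex h k) := by
    intro a b c n h1 hn f g h k e1 e2
    refine ⟨⟨f + 1, f - 1, g, g, by linear_combination 2 * e1, rfl⟩, ?_⟩
    obtain ⟨hev, h0, hQ⟩ := Bsg.q_all a b c h1
    rw [← hn] at hev h0 hQ
    obtain ⟨A, B, C, D, hA, hB, hC, hD, hN, ⟨s1, s2, s3, s4⟩, t1, t2, t3, t4⟩ :=
      Bsg.base_of hev h0 (hQ f g h k e1 e2)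
    refine ⟨A, B, C, D, ⟨hA, hB, hC, hD, hN⟩, Or.inl ⟨?_, ?_⟩⟩
    · rw [part, s1, s2, s3, s4, golayVertex]
    · rw [part]
      simp only [alt]
      rw [t1, t2, t3, t4, golayVertex]
  refine ⟨key, fun M n hM hn => ?_⟩
  have hn' : n = 2 ^ (0 + 1) * 10 ^ (2 * M) * 26 ^ 0 := by
    rw [hn, pow_mul]
    norm_num
  have hnorm : ∀ i : Fin (M + 1), Bsg.cf M i ^ 2 + Bsg.cg M i ^ 2 = 2 * (n : ℤ) := by
    intro i
    rw [hn]
    exact Bsg.c_norm (Nat.lt_succ_iff.mp i.2)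
  refine ⟨fun i => golayVertex (Bsg.cf M i) (Bsg.cg M i), fun i j hij => ?_,
    fun i => (key 0 (2 * M) 0 n (by omega) hn' _ _ _ _ (hnorm i) (hnorm i)).1,
    fun i j => (key 0 (2 * M) 0 n (by omega) hn' _ _ _ _ (hnorm i) (hnorm j)).2⟩
  have hsum : ∀ i : Fin (M + 1), ((golayVertex (Bsg.cf M i) (Bsg.cg M i)).map
      fun x => if x % 2 = 1 then x else 0).sum = 2 * Bsg.cf M i ^ 2 + 2 := by
    intro i
    obtain ⟨a1, a2⟩ := Bsg.c_even M i
    generalize Bsg.cf M i = f at *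
    generalize Bsg.cg M i = g at *
    obtain ⟨f', rfl⟩ : ∃ f', f = 2 * f' := ⟨f / 2, by omega⟩
    obtain ⟨g', rfl⟩ : ∃ g', g = 2 * g' := ⟨g / 2, by omega⟩
    have b1 : (2 * f' + 1) ^ 2 % 2 = 1 := by
      rw [show (2 * f' + 1) ^ 2 = 2 * (2 * f' ^ 2 + 2 * f') + 1 by ring]
      omega
    have b2 : (2 * f' - 1) ^ 2 % 2 = 1 := by
      rw [show (2 * f' - 1) ^ 2 = 2 * (2 * f' ^ 2 - 2 * f') + 1 by ring]
      omega
    have b3 : ¬ (2 * g') ^ 2 % 2 = 1 := by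
      rw [show (2 * g') ^ 2 = 2 * (2 * g' ^ 2) by ring]
      omega
    simp only [golayVertex, Multiset.insert_eq_cons, Multiset.map_cons, Multiset.map_singleton,
      Multiset.sum_cons, Multiset.sum_singleton, if_pos b1, if_pos b2, if_neg b3]
    ring
  have h1 := hsum i
  have h2 := hsum j
  have hij' : golayVertex (Bsg.cf M i) (Bsg.cg M i) = golayVertex (Bsg.cf M j) (Bsg.cg M j) := hij
  rw [hij', h2] at h1
  have h3 : Bsg.cf M i ^ 2 = Bsg.cf M j ^ 2 := by linarith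
  exact Fin.ext (Bsg.c_inj h3)

end Pool.Agent.Results.MP_350f26_co.GolayCliques
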